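import Pool.Agent.Lib_helper54.AE.Short

/-!
# MP_ef641d_nt: Q1 for one prime, for all primes, and modulo infinitely many primes

Let `π^τ`, `τ : K → ℂ`, be the conjugates of a cuspidal automorphic representation of `GL_n` over `ℚ`,
`n ≥ 2`, with the Satake polynomials `P p ∈ O_K[X]` at the primes `p` not dividing the level
`N` (representations of Artin type in Clozel's normalisation: they are algebraic, never regular, and
their Galois representation should have finite image).

(A) For every sparse set `E` of primes (finite, or empty, or of small density) the following are
equivalent: (1) over SOME field of characteristic zero with a Hausdorff ring topology there is a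
continuous semisimple representation attached to `P p` at all `p` outside `E`; (2) for ALL primes `ℓ`
there is one over `Q_ℓ^bar`; (3) there are such representations modulo infinitely many primes of `O_K`
(the theorem of Deligne and Serre is (3) ⇒ (4) for `n = 2` and weight one); (4) there are such
representations over ALL algebraically closed fields of all characteristics, with finite image and with
the traces of one function `a : G_ℚ → O_K`. It is not assumed that `π` is tempered.

(B) If these statements hold for `E` and for `F`, then they hold for the intersection of `E` and `F`.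

(C) The statement Q1 for `π` and ONE prime `ℓ` implies (4) for `E = {ℓ}`: in particular Q1 for ALL primes
`q`, at all places `p ≠ ℓ` (also at `p = q`). Q1 for two primes implies (4) at all places.
-/

set_option autoImplicit false

namespace Pool.Agent.Results.MP_ef641d_nt.AllEll

open Polynomial NumberField Pool.Agent.AES

theorem result {n N : ℕ} (hn : 2 ≤ n) (hN : N ≠ 0) (K : Type) [Field K] [NumberField K]
    (P : ℕ → (𝓞 K)[X]) (hP : AllConjugates n N P) :
    (∀ E : Set ℕ, Sparse n E →
      [SomeField n N (AlgebraicClosure ℚ) P E, EveryEll n N (AlgebraicClosure ℚ) P E,
        ManyResidual n N (AlgebraicClosure ℚ) P E,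
        FullSystem n N (AlgebraicClosure ℚ) P E].TFAE) ∧
    (∀ E F : Set ℕ, Sparse n E → Sparse n F → FullSystem n N (AlgebraicClosure ℚ) P E →
      FullSystem n N (AlgebraicClosure ℚ) P F → FullSystem n N (AlgebraicClosure ℚ) P (E ∩ F)) ∧
    (∀ (ℓ : ℕ) [Fact ℓ.Prime], Q1At n N (AlgebraicClosure ℚ) P ℓ →
      FullSystem n N (AlgebraicClosure ℚ) P {ℓ} ∧
      ∀ (q : ℕ) [Fact q.Prime], q ≠ ℓ → Q1At n N (AlgebraicClosure ℚ) P q →
        FullSystem n N (AlgebraicClosure ℚ) P ∅) :=
  main hn hN K P hP

end Pool.Agent.Results.MP_ef641d_nt.AllEll
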